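import Pool.Agent.Lib.MP_b5021c_nt.IfaceK1

/-!
# MP_b5021c_nt, chapter K, row FAT

Fatou: a recurrent integer sequence satisfies a monic integral recurrence.
-/

namespace Pool.Agent.MP_b5021c_nt.H17

open Polynomial

/-- The shift of sequences. -/
def sh : Module.End ℤ (ℕ → ℤ) where
  toFun x := fun n => x (n + 1)
  map_add' _ _ := rfl
  map_smul' _ _ := rfl

lemma sh_pow (i : ℕ) (x : ℕ → ℤ) (n : ℕ) : (sh ^ i) x n = x (n + i) := by
  induction i generalizing n with
  | zero => simp
  | succ k ih =>
      rw [pow_succ', Module.End.mul_apply]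
      change (sh ^ k) x (n + 1) = _
      rw [ih]
      congr 1
      omega

lemma aeval_sh (p : ℤ[X]) (x : ℕ → ℤ) (n : ℕ) :
    (aeval sh p) x n = p.sum (fun i c => c * x (n + i)) := by
  rw [aeval_def, eval₂_eq_sum, Polynomial.sum, LinearMap.sum_apply, Finset.sum_apply, Polynomial.sum]
  refine Finset.sum_congr rfl fun i _ => ?_
  rw [Module.End.mul_apply, Module.algebraMap_end_apply, Pi.smul_apply, sh_pow, smul_eq_mul]

lemma ann_iff (p : ℤ[X]) (x : ℕ → ℤ) : Ann p x ↔ aeval sh p x = 0 := by
  constructor
  · intro h
    funext n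
    rw [aeval_sh]
    exact h n
  · intro h n
    rw [← aeval_sh, h]
    rfl

/-- FAT. -/
theorem fat : FatS := by
  intro a q hq ha
  set W : Submodule ℤ (ℕ → ℤ) := LinearMap.ker (aeval sh q) with hW
  have haW : a ∈ W := by
    rw [hW, LinearMap.mem_ker]
    exact (ann_iff q a).1 ha
  -- W embeds in `ℤ^d`
  let π : W →ₗ[ℤ] (Fin q.natDegree → ℤ) :=
    { toFun := fun x i => x.1 i
      map_add' := fun _ _ => rfl
      map_smul' := fun _ _ => rfl }
  have hπ : Function.Injective π := by
    rw [← LinearMap.ker_eq_bot, LinearMap.ker_eq_bot']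
    rintro ⟨x, hx⟩ h0
    have hx' : Ann q x := (ann_iff q x).2 (by rwa [hW, LinearMap.mem_ker] at hx)
    have h1 : ∀ m, x m = 0 := by
      intro m
      induction m using Nat.strong_induction_on with
      | _ m ih =>
        by_cases hm : m < q.natDegree
        · exact congrFun h0 ⟨m, hm⟩
        · push Not at hm
          obtain ⟨n, rfl⟩ := Nat.exists_eq_add_of_le hm
          have h2 := hx' n
          rw [Polynomial.sum_over_range _ (by simp), Finset.sum_range_succ,
            Finset.sum_eq_zero, zero_add] at h2
          · rcases mul_eq_zero.1 h2 with h3 | h3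
            · exact absurd (leadingCoeff_eq_zero.1 h3) hq
            · rwa [add_comm] at h3
          · intro i hi
            rw [ih (n + i) (by have := Finset.mem_range.1 hi; omega), mul_zero]
    exact Subtype.ext (funext h1)
  have : Module.Finite ℤ W := Module.Finite.of_injective π hπ
  have hst : ∀ x ∈ W, sh x ∈ W := by
    intro x hx
    rw [hW, LinearMap.mem_ker] at hx ⊢
    have hc : aeval sh q * sh = sh * aeval sh q := by
      have := (Polynomial.commute_X q).symm
      have h2 := congrArg (aeval sh) this
      simpa using h2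
    have := congrArg (fun f : Module.End ℤ (ℕ → ℤ) => f x) hc
    simp only [Module.End.mul_apply] at this
    rw [this, hx, map_zero]
  obtain ⟨p, hp, hp0⟩ := LinearMap.exists_monic_and_aeval_eq_zero ℤ (sh.restrict hst)
  refine ⟨p, hp, (ann_iff p a).2 ?_⟩
  have key : ∀ (r : ℤ[X]) (x : W), ((aeval (sh.restrict hst) r) x : ℕ → ℤ) = aeval sh r x.1 := by
    intro r x
    induction r using Polynomial.induction_on generalizing x with
    | C c => simp
    | add p q hp hq => simp only [map_add, LinearMap.add_apply, Submodule.coe_add, hp, hq]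
    | monomial n c h =>
        rw [pow_succ, ← mul_assoc]
        simp only [map_mul, aeval_X, Module.End.mul_apply] at h ⊢
        have := h (sh.restrict hst x)
        simpa using this
  have := key p ⟨a, haW⟩
  rw [hp0] at this
  simpa using this.symm

end Pool.Agent.MP_b5021c_nt.H17
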